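import Pool.Agent.Work.MP_223b32_tl.Interface

set_option autoImplicit false

namespace Pool.Agent.Work.TL

open Finset Polynomial Pool.Agent.Work.MP_223b32_ag Pool.Agent.Work.MP_223b32_ag_56
  Pool.Agent.Work.TC

theorem ALG.eta_cases (n : ℕ) : eta n = 1 ∨ eta n = -1 := by
  unfold eta
  split_ifs
  · exact Or.inl rfl
  · exact Or.inr rfl

theorem ALG.pos_of_mem {g d : ℕ} {η : ℤ} (hd : d ∈ DD g η) : 0 < d := by
  unfold DD at hd
  split_ifs at hd
  · exact Nat.pos_of_mem_divisors hd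
  · exact Nat.pos_of_mem_divisors (mem_filter.1 hd).1

theorem stmt_ALG (hID : Stmt_ID) (hDIV : Stmt_DIV) (hCYC : Stmt_CYC) (hLAST : Stmt_LAST)
    (hBAL : Stmt_BAL) : Stmt_ALG := by
  intro n g q ρ σ r ζ al be w v horb hn hnq hsq
  by_cases hex : ∃ d ∈ DD g (eta n), d ≠ d0 n ∧ Rel q al (Psi g (eta n) d)
  · exact Or.inl hex
  right
  push Not at hex
  have hg : 1 ≤ g := by
    have h1 := horb.prime.two_le
    have h2 := horb.two_g
    omega
  obtain ⟨I, hI, hsat, hX⟩ := hID n g (eta n) q ρ σ r ζ al be w v horb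
  obtain ⟨hc1, hc2, hc3⟩ := hCYC g (eta n) hg (ALG.eta_cases n)
  obtain ⟨hd0, hlast⟩ := hLAST n g q ρ σ r ζ al be w v horb hn hnq hsq I hI
  have claim1 : ∀ P ∈ I, ∀ d ∈ DD g (eta n), d ≠ d0 n → cyclotomic d ℤ ∣ P := by
    intro P hP d hd hne
    by_contra hnot
    have h1 : cyclotomic d ℤ * Psi g (eta n) d ∈ I := by
      rw [(hc1 d hd).1]
      exact hX
    have h2 := hDIV I hsat P (Psi g (eta n) d) d (ALG.pos_of_mem hd) h1 hP hnot
    exact hex d hd hne ((hI _).1 h2)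
  have claim2 : ∀ P ∈ I, (X ^ g - C (eta n)) ∣ P := by
    intro P hP
    refine hc2 P fun d hd => ?_
    by_cases hne : d = d0 n
    · by_contra hnot
      have h1 : cyclotomic d ℤ * Psi g (eta n) d ∈ I := by
        rw [(hc1 d hd).1]
        exact hX
      have h2 := hDIV I hsat P (Psi g (eta n) d) d (ALG.pos_of_mem hd) h1 hP hnot
      rw [hne] at h2
      exact hlast (fun P' hP' => hc3 (d0 n) hd0 P' fun d' hd' hne' => claim1 P' hP' d' hd' hne') h2
    · exact claim1 P hP d hd hne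
  exact hBAL n g (eta n) q ρ σ r ζ al be w v horb fun P hP => claim2 P ((hI P).2 hP)

end Pool.Agent.Work.TL
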