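import Pool.Agent.Work.MP_223b32_tl.Interface

set_option autoImplicit false

namespace Pool.Agent.Work.TL

open Finset Polynomial Pool.Agent.Work.MP_223b32_ag Pool.Agent.Work.MP_223b32_ag_56
  Pool.Agent.Work.TC

namespace LAST

theorem psi0_mul (g' m : ℕ) (η : ℤ) (hη : η = 1 ∨ η = -1) (hodd : Odd g') :
    (X ^ m - C η) * Psi0 g' m η = X ^ (m * g') - C η := by
  have hsum : Psi0 g' m η = ∑ k ∈ range g', (C η * X ^ m) ^ k := by
    unfold Psi0
    refine Finset.sum_congr rfl fun k _ => ?_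
    rw [mul_pow, ← pow_mul, C_pow]
  have hgeom := mul_neg_geom_sum (C η * X ^ m : ℤ[X]) g'
  have hηη : (C η * C η : ℤ[X]) = 1 := by
    rw [← C_mul]
    rcases hη with rfl | rfl <;> simp
  have hpow : (C η * X ^ m : ℤ[X]) ^ g' = C η * X ^ (m * g') := by
    rw [mul_pow, ← pow_mul, ← C_pow]
    rcases hη with rfl | rfl
    · simp
    · rw [hodd.neg_one_pow]
  rw [hpow] at hgeom
  rw [hsum]
  calc (X ^ m - C η) * ∑ k ∈ range g', (C η * X ^ m) ^ k
      = -(C η) * ((1 - C η * X ^ m) * ∑ k ∈ range g', (C η * X ^ m) ^ k) := by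
        have : (X ^ m - C η : ℤ[X]) = -(C η) * (1 - C η * X ^ m) := by
          calc (X ^ m - C η : ℤ[X]) = (C η * C η) * X ^ m - C η := by rw [hηη, one_mul]
            _ = _ := by ring
        rw [this]
        ring
    _ = -(C η) * (1 - C η * X ^ (m * g')) := by rw [hgeom]
    _ = (C η * C η) * X ^ (m * g') - C η := by ring
    _ = _ := by rw [hηη, one_mul]

theorem psi_eq (g g' m d : ℕ) (η : ℤ) (hη : η = 1 ∨ η = -1) (hodd : Odd g') (hg : g = m * g')
    (hcyc : cyclotomic d ℤ = X ^ m - C η) : Psi g η d = Psi0 g' m η := by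
  unfold Psi
  rw [hg, ← psi0_mul g' m η hη hodd, ← hcyc]
  exact mul_divByMonic_cancel_left _ (cyclotomic.monic d ℤ)

theorem natDegree_psi0 (g' m : ℕ) (η : ℤ) (hm : 1 ≤ m) (hg' : 1 ≤ g') :
    (Psi0 g' m η).natDegree < m * g' := by
  unfold Psi0
  refine lt_of_le_of_lt (natDegree_sum_le_of_forall_le (n := m * (g' - 1)) _ _ fun k hk => ?_) ?_
  · rw [mem_range] at hk
    refine (natDegree_C_mul_X_pow_le _ _).trans ?_
    exact Nat.mul_le_mul_left _ (by omega)
  · exact Nat.mul_lt_mul_of_pos_left (by omega) (by omega)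

theorem coeff_psi0 (g' m : ℕ) (η : ℤ) (hη : η = 1 ∨ η = -1) (hm : 1 ≤ m) (i : ℕ)
    (hi : i < m * g') : Odd ((Psi0 g' m η).coeff i) ↔ m ∣ i := by
  unfold Psi0
  rw [finsetSum_coeff]
  have h1 : ∀ k, (C (η ^ k) * X ^ (m * k) : ℤ[X]).coeff i = if i = m * k then η ^ k else 0 :=
    fun k => by rw [coeff_C_mul_X_pow]
  rw [Finset.sum_congr rfl fun k _ => h1 k]
  constructor
  · intro hodd
    by_contra hnd
    have h2 : ∑ k ∈ range g', (if i = m * k then η ^ k else 0) = 0 := by
      refine Finset.sum_eq_zero fun k _ => ?_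
      rw [if_neg]
      rintro rfl
      exact hnd (Dvd.intro k rfl)
    rw [h2] at hodd
    exact (by decide : ¬ Odd (0 : ℤ)) hodd
  · rintro ⟨k₀, rfl⟩
    have hk₀ : k₀ < g' := Nat.lt_of_mul_lt_mul_left hi
    rw [Finset.sum_eq_single k₀]
    · rw [if_pos rfl]
      rcases hη with rfl | rfl
      · simp
      · rcases neg_one_pow_eq_or ℤ k₀ with h | h <;> rw [h] <;> decide
    · intro k _ hne
      rw [if_neg]
      intro h
      exact hne (Nat.eq_of_mul_eq_mul_left (by omega) h).symm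
    · intro h
      exact absurd (mem_range.2 hk₀) h

theorem filter_eq (g' m : ℕ) (η : ℤ) (hη : η = 1 ∨ η = -1) (hm : 1 ≤ m) :
    (range (m * g')).filter (fun i => Odd ((Psi0 g' m η).coeff i))
      = (range g').image (fun k => m * k) := by
  ext i
  rw [mem_filter, mem_range, mem_image]
  constructor
  · rintro ⟨h1, h2⟩
    obtain ⟨k, rfl⟩ := (coeff_psi0 g' m η hη hm i h1).1 h2
    exact ⟨k, mem_range.2 (Nat.lt_of_mul_lt_mul_left h1), rfl⟩
  · rintro ⟨k, hk, rfl⟩
    have hlt : m * k < m * g' := Nat.mul_lt_mul_of_pos_left (mem_range.1 hk) (by omega)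
    exact ⟨hlt, (coeff_psi0 g' m η hη hm _ hlt).2 (Dvd.intro k rfl)⟩

theorem two_eq_zero : (2 : Om) = 0 := by
  have : CharP Om 2 := inferInstance
  exact_mod_cast CharP.cast_eq_zero Om 2

theorem odd_cast (a : ℕ) (ha : Odd a) : (a : Om) = 1 := by
  obtain ⟨k, rfl⟩ := ha
  push_cast
  rw [two_eq_zero]
  ring

theorem fo_sum (hFO : Stmt_FO) (n g g' m : ℕ) (η : ℤ) (q : ℕ) (ρ : AA →+* Om) (σ : AA ≃+* AA)
    (r : ℕ → ℕ) (ζ : Om) (al be w v : ℕ → AA) (horb : Orb n g η q ρ σ r ζ al be w v)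
    (hη : η = 1 ∨ η = -1) (hm : 1 ≤ m) (hg : g = m * g') (hodd : Odd g')
    (hrel : Rel q al (Psi0 g' m η)) :
    ∑ k ∈ range g', (ρ (w (m * k)) + ρ (w (m * k)) ^ 2) = ((kap (q ^ n) : ℕ) : Om) := by
  have hg'1 : 1 ≤ g' := hodd.pos
  have hdeg : (Psi0 g' m η).natDegree < g := by
    rw [hg]
    exact natDegree_psi0 g' m η hm hg'1
  have h1 := hFO n g η q ρ σ r ζ al be w v horb (Psi0 g' m η) hdeg hrel
  have hinj : Function.Injective fun k : ℕ => m * k := fun a b h =>
    Nat.eq_of_mul_eq_mul_left (by omega) h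
  rw [hg, filter_eq g' m η hη hm, Finset.sum_image (fun a _ b _ h => hinj h),
    Finset.card_image_of_injective _ hinj, card_range] at h1
  rw [h1]
  push_cast
  rw [odd_cast g' hodd, one_mul]

theorem pow_mod (q n : ℕ) (hq : Odd q) (hn : Odd n) : q ^ n % 8 = q % 8 := by
  obtain ⟨k, rfl⟩ := hn
  have h1 : q % 8 = 1 ∨ q % 8 = 3 ∨ q % 8 = 5 ∨ q % 8 = 7 := by
    obtain ⟨t, rfl⟩ := hq
    omega
  have h2 : q ^ 2 % 8 = 1 := by
    rw [Nat.pow_mod]
    rcases h1 with h | h | h | h <;> rw [h]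
  have h3 : (q ^ 2) ^ k % 8 = 1 := by
    rw [Nat.pow_mod, h2, one_pow]
    norm_num
  rw [pow_succ, pow_mul, Nat.mul_mod, h3, one_mul, Nat.mod_mod]

end LAST

theorem stmt_LAST (hFO : Stmt_FO) (hTR : Stmt_TR) (hDESC : Stmt_DESC) : Stmt_LAST := by
  intro n g q ρ σ r ζ al be w v horb hn hnq hsq I hI
  have hn2 := horb.two_g
  have hp2 := horb.prime.two_le
  have hgpos : 1 ≤ g := by omega
  have hnodd : Odd n := ⟨g, by omega⟩
  have hpm := LAST.pow_mod q n horb.odd_q hnodd
  have hq8 : q % 8 = 1 ∨ q % 8 = 3 ∨ q % 8 = 5 ∨ q % 8 = 7 := by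
    obtain ⟨t, ht⟩ := horb.odd_q
    omega
  obtain ⟨ht1, ht2, ht3⟩ := hTR n g (eta n) q ρ σ r ζ al be w v horb
  -- the general argument
  have key : ∀ m g' : ℕ, 1 ≤ m → g = m * g' → Odd g' → (m = 1 ∨ (m = 2 ∧ eta n = -1)) →
      cyclotomic (d0 n) ℤ = X ^ m - C (eta n) → (eta n = 1 ∨ eta n = -1) →
      (∑ k ∈ range g', (ρ (w (m * k)) + ρ (w (m * k)) ^ 2) = ((kap (q ^ n) : ℕ) : Om) →
        q % 8 = 1) →
      ((∀ P ∈ I, Psi g (eta n) (d0 n) ∣ P) → Psi g (eta n) (d0 n) ∉ I) := by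
    intro m g' hm hg hodd hmm hcyc hη hq hdiv hmem
    rw [LAST.psi_eq g g' m (d0 n) (eta n) hη hodd hg hcyc] at hdiv hmem
    have h1 := LAST.fo_sum hFO n g g' m (eta n) q ρ σ r ζ al be w v horb hη hm hg hodd
      ((hI _).1 hmem)
    exact hDESC n g (eta n) q ρ σ r ζ al be w v horb (hq h1) hsq m g' hg hodd hmm I hI hdiv hmem
  rcases hn with h3 | h5 | h7
  · have he : eta n = -1 := by unfold eta; rw [if_neg (by omega)]
    have hd : d0 n = 2 := by unfold d0; rw [if_neg (by omega), if_pos h3]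
    have hgodd : Odd g := by rw [Nat.odd_iff]; omega
    refine ⟨?_, key 1 g le_rfl (one_mul g).symm hgodd (Or.inl rfl) ?_ (Or.inr he) ?_⟩
    · rw [he, hd]
      unfold DD
      rw [if_neg (by decide), mem_filter, Nat.mem_divisors]
      refine ⟨⟨Dvd.intro g rfl, by omega⟩, ?_⟩
      rw [Nat.odd_iff] at hgodd
      omega
    · rw [he, hd, cyclotomic_two, pow_one]
      simp
    · intro hs
      simp only [one_mul] at hs
      rw [ht2 he] at hs
      have hkap : kap (q ^ n) = if q % 8 = 3 ∨ q % 8 = 5 then 1 else 0 := by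
        unfold kap; rw [hpm]
      rw [hkap] at hs
      unfold eps at hs
      rcases hq8 with h | h | h | h
      · exact h
      · exfalso; exact hnq (h3.trans h.symm)
      · exfalso
        rw [if_neg (by omega), if_pos (Or.inr h)] at hs
        simp at hs
      · exfalso
        rw [if_pos (by omega), if_neg (by omega)] at hs
        simp at hs
  · have he : eta n = -1 := by unfold eta; rw [if_neg (by omega)]
    have hd : d0 n = 4 := by unfold d0; rw [if_neg (by omega), if_neg (by omega)]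
    have hg2 : g = 2 * (g / 2) := by omega
    have hgodd : Odd (g / 2) := by rw [Nat.odd_iff]; omega
    refine ⟨?_, key 2 (g / 2) (by norm_num) hg2 hgodd (Or.inr ⟨rfl, he⟩) ?_ (Or.inr he) ?_⟩
    · rw [he, hd]
      unfold DD
      rw [if_neg (by decide), mem_filter, Nat.mem_divisors]
      refine ⟨⟨?_, by omega⟩, ?_⟩
      · exact ⟨g / 2, by omega⟩
      · omega
    · rw [he, hd]
      have : cyclotomic (2 ^ 2) ℤ = X ^ 2 + 1 := by
        rw [cyclotomic_prime_pow_eq_geom_sum Nat.prime_two]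
        simp [Finset.sum_range_succ, add_comm]
      have h4 : (4 : ℕ) = 2 ^ 2 := by norm_num
      rw [h4, this]
      simp
    · intro hs
      have hx := ht3 (g / 2) hg2 he _ rfl
      rw [hs] at hx
      unfold eps at hx
      rcases hq8 with h | h | h | h
      · exact h
      · exfalso
        rw [if_pos (by omega)] at hx
        unfold kap at hx
        split_ifs at hx
        · simp [LAST.two_eq_zero, one_add_one_eq_two] at hx
        · simp at hx
      · exfalso; exact hnq (h5.trans h.symm)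
      · exfalso
        rw [if_pos (by omega)] at hx
        unfold kap at hx
        split_ifs at hx
        · simp [LAST.two_eq_zero, one_add_one_eq_two] at hx
        · simp at hx
  · have he : eta n = 1 := by unfold eta; rw [if_pos h7]
    have hd : d0 n = 1 := by unfold d0; rw [if_pos h7]
    have hgodd : Odd g := by rw [Nat.odd_iff]; omega
    refine ⟨?_, key 1 g le_rfl (one_mul g).symm hgodd (Or.inl rfl) ?_ (Or.inl he) ?_⟩
    · rw [he, hd]
      unfold DD
      rw [if_pos rfl, Nat.mem_divisors]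
      exact ⟨one_dvd g, by omega⟩
    · rw [he, hd, cyclotomic_one, pow_one]
      simp
    · intro hs
      simp only [one_mul] at hs
      rw [ht1 he] at hs
      have hkap : kap (q ^ n) = if q % 8 = 3 ∨ q % 8 = 5 then 1 else 0 := by
        unfold kap; rw [hpm]
      rw [hkap] at hs
      rcases hq8 with h | h | h | h
      · exact h
      · exfalso
        rw [if_pos (Or.inl h)] at hs
        simp at hs
      · exfalso
        rw [if_pos (Or.inr h)] at hs
        simp at hs
      · exfalso; exact hnq (h7.trans h.symm)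

end Pool.Agent.Work.TL
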